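import Mathlib
import Pool.Agent.TH932.S2.G.Crit

set_option autoImplicit false

/-!
# The block complexity of the parities of the trajectories of the `5x+1` map
-/

namespace Pool.Agent.Results.MP_dc530b_nt.SuperlinearParities

open Filter Topology Pool.Agent.TH932.S2.G

/-- the map of the problem -/
def T (x : ℤ) : ℤ := if x % 2 = 0 then x / 2 else (5 * x + 1) / 2

/-- the number of different blocks of `n` consecutive parities in the trajectory -/
noncomputable def blocks (x : ℤ) (n : ℕ) : ℕ :=
  (Set.range fun i : ℕ => fun j : Fin n => ((T^[i + j] x : ℤ) : ZMod 2)).ncard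

/-- the number of different blocks of `n` consecutive parities among the first `h` terms of the
trajectory -/
noncomputable def blocksUpTo (x : ℤ) (h n : ℕ) : ℕ :=
  ((fun i : ℕ => fun j : Fin n => ((T^[i + j] x : ℤ) : ZMod 2)) '' {i | i + n ≤ h}).ncard

/-- exponents -/
def dl (a : ZMod 2) : ℕ := if a = 0 then 0 else 1

/-- constant terms -/
def bt (a : ZMod 2) : ℤ := if a = 0 then 0 else 1

lemma hG (x : ℤ) : ((2 : ℕ) : ℤ) * T x = ((5 : ℕ) : ℤ) ^ dl (x : ZMod 2) * x + bt (x : ZMod 2) := by
  have e0 : (x : ZMod 2) = 0 ↔ x % 2 = 0 := by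
    rw [ZMod.intCast_zmod_eq_zero_iff_dvd]
    omega
  unfold T dl bt
  rcases (by omega : x % 2 = 0 ∨ x % 2 = 1) with h | h
  · rw [if_pos h, if_pos (e0.2 h), if_pos (e0.2 h)]
    push_cast
    omega
  · rw [if_neg (by omega), if_neg (by rw [e0]; omega), if_neg (by rw [e0]; omega)]
    push_cast
    omega

/-- **Result.** (1) If the trajectory of the integer `x` under the `5x+1` map is divergent, then
`p (n) / n` tends to infinity, where `p (n)` is the number of different blocks of `n` consecutive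
parities in it.

(2) For every `A` there is `K` such that, for all `N ≥ K` and all integers `x` with `|x| ≤ 2 ^ N`:
if at most `A N` different blocks of length `N` occur among the first `N ^ K` terms of the
trajectory of `x`, then the trajectory reaches, after at most `N ^ K` steps, a cycle of length at
most `N ^ K`, and all its terms have absolute value at most `2 ^ (K N)`.

(3) For every `A > 0` there is `K` such that, for all integers `x` and all `N₀ ≥ K` with
`|x| ≤ 2 ^ N₀` (for instance `x = 7` and `N₀ = K + 3`): the trajectory of `x` is divergent if and only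
if, for every `N ≥ N₀`, more than `A N` different blocks of length `N` occur among its first
`N ^ K` terms. -/
theorem result :
    (∀ x : ℤ, (∀ R : ℤ, ∃ k, R < |T^[k] x|) →
      Tendsto (fun n : ℕ => (blocks x n : ℝ) / n) atTop atTop) ∧
    (∀ A : ℝ, ∃ K : ℕ, ∀ (x : ℤ) (N : ℕ), K ≤ N → |x| ≤ 2 ^ N →
      (blocksUpTo x (N ^ K) N : ℝ) ≤ A * N →
      (∃ i ≤ N ^ K, ∃ k, 1 ≤ k ∧ k ≤ N ^ K ∧ T^[k] (T^[i] x) = T^[i] x) ∧
        ∀ j, |T^[j] x| ≤ 2 ^ (K * N)) ∧
    (∀ A : ℝ, 0 < A → ∃ K : ℕ, ∀ (x : ℤ) (N₀ : ℕ), K ≤ N₀ → |x| ≤ 2 ^ N₀ →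
      ((∀ R : ℤ, ∃ k, R < |T^[k] x|) ↔
        ∀ N : ℕ, N₀ ≤ N → A * N < blocksUpTo x (N ^ K) N)) :=
  ⟨fun _ hx => Gc.unb (d := 2) (q := 5) le_rfl (by norm_num) (by norm_num) hG hx,
    fun A => Gc.one (d := 2) (q := 5) le_rfl (by norm_num) (by norm_num) hG A,
    fun A hA => Gc.crit (d := 2) (q := 5) le_rfl (by norm_num) (by norm_num) hG A hA⟩

end Pool.Agent.Results.MP_dc530b_nt.SuperlinearParities
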